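import Mathlib

/-!
# The numbers (Helper15, row G4 of MP_bd895b_nt)

`V l m` is the sum of the `l`-parts of `1, …, m`.  `cut_numbers`: if `∑ d a ^ 2 ≤ n` then for
`D + 1` a large power of `l` and for large `S` the costs of the equations above any level are less
than the values of the unknowns above this level.
-/

set_option autoImplicit false

namespace ZC

/-- the weight of the `j`-th equation of a form of degree `d` for chains with `D + 1` links -/
def wgt (D d j : ℕ) : ℕ := if j ≤ d * D then j else (d * (D + 1) - j) * D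

namespace BDNum

variable {l : ℕ}

/-- the sum of the `l`-parts of `1, …, m` -/
def V (l m : ℕ) : ℕ := ∑ j ∈ Finset.range m, l ^ padicValNat l (j + 1)

theorem V_zero (l : ℕ) : V l 0 = 0 := rfl

theorem V_succ (l m : ℕ) : V l (m + 1) = V l m + l ^ padicValNat l (m + 1) :=
  Finset.sum_range_succ _ _

theorem V_mono (l : ℕ) {m m' : ℕ} (h : m ≤ m') : V l m ≤ V l m' := by
  induction m', h using Nat.le_induction with
  | base => exact le_rfl
  | succ m' _ ih =>
    rw [V_succ]
    omega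

theorem part_le {j : ℕ} (hj : 0 < j) : l ^ padicValNat l j ≤ j :=
  Nat.le_of_dvd hj pow_padicValNat_dvd

theorem sum_Ioc (l k m : ℕ) (h : k ≤ m) :
    V l k + ∑ i ∈ Finset.Ioc k m, l ^ padicValNat l i = V l m := by
  induction m, h using Nat.le_induction with
  | base => simp
  | succ m hm ih =>
    rw [← Finset.insert_Ioc_right_eq_Ioc_add_one hm, Finset.sum_insert (by simp), V_succ, ← ih]
    ring

theorem V_add_lt (m t : ℕ) (ht : t < l) : V l (l * m + t) = V l (l * m) + t := by
  induction t with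
  | zero => rfl
  | succ t ih =>
    have h1 : ¬ l ∣ l * m + t + 1 := by
      intro h
      rw [add_assoc, Nat.dvd_add_right (dvd_mul_right l m)] at h
      exact absurd (Nat.le_of_dvd (Nat.succ_pos t) h) (not_le.mpr ht)
    rw [← add_assoc, V_succ, ih (by omega), padicValNat.eq_zero_of_not_dvd h1]
    ring

theorem V_mul (hl : l.Prime) (m : ℕ) : V l (l * m) = l * V l m + (l - 1) * m := by
  induction m with
  | zero => simp [V_zero]
  | succ m ih =>
    have hl2 := hl.two_le
    have h2 : l * (m + 1) = l * m + (l - 1) + 1 := by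
      rw [mul_add, mul_one]
      omega
    have : Fact l.Prime := ⟨hl⟩
    have h4 : padicValNat l (l * (m + 1)) = padicValNat l (m + 1) + 1 := by
      rw [padicValNat.mul hl.ne_zero (Nat.succ_ne_zero m), padicValNat_self, add_comm]
    rw [h2, V_succ, ← h2, V_add_lt m (l - 1) (by omega), ih, h4, V_succ, pow_succ]
    obtain ⟨q, hq⟩ : ∃ q, l = q + 1 := ⟨l - 1, by omega⟩
    rw [hq, Nat.add_sub_cancel]
    ring

theorem V_pow (hl : l.Prime) (c k : ℕ) :
    l * V l (c * l ^ k) = l ^ k * (l * V l c + k * (l - 1) * c) := by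
  induction k with
  | zero => simp
  | succ k ih =>
    have h2 : c * l ^ (k + 1) = l * (c * l ^ k) := by ring
    rw [h2, V_mul hl, mul_add]
    calc l * (l * V l (c * l ^ k)) + l * ((l - 1) * (c * l ^ k))
        = l * (l * V l (c * l ^ k)) + l ^ k * l * ((l - 1) * c) := by ring
      _ = _ := by
          rw [ih]
          ring

/-- the blocks -/
theorem V_superlinear (hl : l.Prime) (R x : ℕ) (hx : l ^ R ≤ x) : R * x ≤ 4 * V l x := by
  have hl2 := hl.two_le
  have hpos : 0 < l ^ R := pow_pos hl.pos _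
  set q := x / l ^ R with hq
  have hq1 : 1 ≤ q := (Nat.one_le_div_iff hpos).2 hx
  have h1 : q * l ^ R ≤ x := Nat.div_mul_le_self x _
  have h2 : x ≤ 2 * (q * l ^ R) := by
    have h3 : x < (q + 1) * l ^ R := by
      have := Nat.lt_succ_iff.2 (le_refl q)
      rw [mul_comm]
      exact Nat.lt_mul_div_succ x hpos
    nlinarith
  have h3 := V_pow hl q R
  have h4 : V l (q * l ^ R) ≤ V l x := V_mono l h1
  have h5 : l ^ R * (R * (l - 1) * q) ≤ l * V l x := by
    calc l ^ R * (R * (l - 1) * q) ≤ l ^ R * (l * V l q + R * (l - 1) * q) :=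
          Nat.mul_le_mul_left _ (Nat.le_add_left _ _)
      _ = l * V l (q * l ^ R) := h3.symm
      _ ≤ l * V l x := Nat.mul_le_mul_left _ h4
  have h6 : l ≤ 2 * (l - 1) := by omega
  have h7 : l * (R * x) ≤ l * (4 * V l x) := by
    calc l * (R * x) ≤ (2 * (l - 1)) * (R * (2 * (q * l ^ R))) := by gcongr
      _ = 4 * (l ^ R * (R * (l - 1) * q)) := by ring
      _ ≤ 4 * (l * V l x) := Nat.mul_le_mul_left _ h5
      _ = _ := by ring
  exact Nat.le_of_mul_le_mul_left h7 hl.pos

theorem part_sub (hl : l.Prime) {k d j : ℕ} (hj : j < d * l ^ k) (hj0 : ¬ l ^ k ∣ j) :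
    padicValNat l (d * l ^ k - j) = padicValNat l j := by
  have : Fact l.Prime := ⟨hl⟩
  have hj1 : j ≠ 0 := fun h => hj0 (h ▸ dvd_zero _)
  have hj2 : d * l ^ k - j ≠ 0 := by omega
  set s := padicValNat l j with hs
  have hsk : s < k := by
    by_contra hcon
    exact hj0 ((pow_dvd_pow l (not_lt.1 hcon)).trans pow_padicValNat_dvd)
  apply le_antisymm
  · by_contra hcon
    push Not at hcon
    have h1 : l ^ (s + 1) ∣ d * l ^ k - j := (padicValNat_dvd_iff_le hj2).2 hcon
    have h2 : l ^ (s + 1) ∣ d * l ^ k := (pow_dvd_pow l hsk).mul_left d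
    have h3 : l ^ (s + 1) ∣ j := by
      have h4 := Nat.dvd_sub h2 h1
      rwa [Nat.sub_sub_self hj.le] at h4
    have h5 := (padicValNat_dvd_iff_le hj1).1 h3
    omega
  · rw [← padicValNat_dvd_iff_le hj2]
    exact Nat.dvd_sub ((pow_dvd_pow l hsk.le).mul_left d) pow_padicValNat_dvd

theorem V_reflect (hl : l.Prime) (k d y : ℕ) (hy : y < d * l ^ k) :
    V l (d * l ^ k - 1) ≤ V l (d * l ^ k - 1 - y) + V l y + d * l ^ k * (y / l ^ k) := by
  induction y with
  | zero => simp [V_zero]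
  | succ y ih =>
    have ih := ih (by omega)
    have h1 : d * l ^ k - 1 - y = (d * l ^ k - 1 - (y + 1)) + 1 := by omega
    rw [h1, V_succ] at ih
    have h2 : d * l ^ k - 1 - (y + 1) + 1 = d * l ^ k - (y + 1) := by omega
    rw [h2] at ih
    rw [V_succ]
    by_cases h : l ^ k ∣ y + 1
    · have h3 : (y + 1) / l ^ k = y / l ^ k + 1 := by
        rw [Nat.succ_div, if_pos h]
      have h4 : l ^ padicValNat l (d * l ^ k - (y + 1)) ≤ d * l ^ k :=
        (part_le (by omega)).trans (Nat.sub_le _ _)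
      rw [h3, mul_add, mul_one]
      omega
    · have h3 : (y + 1) / l ^ k = y / l ^ k := by
        rw [Nat.succ_div, if_neg h, add_zero]
      rw [part_sub hl hy h] at ih
      rw [h3]
      omega

theorem V_reflect_one (hl : l.Prime) (k x : ℕ) (hx : x < l ^ k) :
    V l (l ^ k - 1) = V l (l ^ k - 1 - x) + V l x := by
  induction x with
  | zero => simp [V_zero]
  | succ x ih =>
    have ih := ih (by omega)
    have h1 : l ^ k - 1 - x = (l ^ k - 1 - (x + 1)) + 1 := by omega
    rw [h1, V_succ] at ih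
    have h2 : l ^ k - 1 - (x + 1) + 1 = l ^ k - (x + 1) := by omega
    rw [h2] at ih
    have h3 : ¬ l ^ k ∣ x + 1 := fun h => absurd (Nat.le_of_dvd (Nat.succ_pos x) h) (not_le.2 hx)
    have h4 := part_sub hl (d := 1) (by rwa [one_mul]) h3
    rw [one_mul] at h4
    rw [h4] at ih
    rw [V_succ, ih]
    omega

/-- the layers -/
theorem V_layers (hl : l.Prime) (K m : ℕ) (hK : m < l ^ (K + 1)) :
    V l m = m + ∑ i ∈ Finset.range K, (l ^ (i + 1) - l ^ i) * (m / l ^ (i + 1)) := by
  have : Fact l.Prime := ⟨hl⟩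
  induction m with
  | zero => simp [V_zero]
  | succ m ih =>
    have ih := ih (by omega)
    rw [V_succ, ih]
    have h1 : ∑ i ∈ Finset.range K, (l ^ (i + 1) - l ^ i) * ((m + 1) / l ^ (i + 1)) =
        ∑ i ∈ Finset.range K, (l ^ (i + 1) - l ^ i) * (m / l ^ (i + 1)) +
          ∑ i ∈ Finset.range K, if l ^ (i + 1) ∣ m + 1 then l ^ (i + 1) - l ^ i else 0 := by
      rw [← Finset.sum_add_distrib]
      refine Finset.sum_congr rfl fun i _ => ?_
      rw [Nat.succ_div]
      split_ifs with h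
      · ring
      · ring
    set s := padicValNat l (m + 1) with hs
    have hsK : s ≤ K := by
      by_contra hcon
      push Not at hcon
      have h2 : l ^ (K + 1) ∣ m + 1 := (pow_dvd_pow l hcon).trans pow_padicValNat_dvd
      exact absurd (Nat.le_of_dvd (Nat.succ_pos m) h2) (not_le.2 hK)
    have h2 : ∑ i ∈ Finset.range K, (if l ^ (i + 1) ∣ m + 1 then l ^ (i + 1) - l ^ i else 0) =
        ∑ i ∈ Finset.range s, (l ^ (i + 1) - l ^ i) := by
      have h3 : ∀ i, l ^ (i + 1) ∣ m + 1 ↔ i < s := fun i => by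
        rw [padicValNat_dvd_iff_le (Nat.succ_ne_zero m)]
        exact Nat.succ_le_iff
      simp only [h3]
      rw [← Finset.sum_filter]
      congr 1
      ext i
      simp only [Finset.mem_filter, Finset.mem_range]
      omega
    have h3 : 1 + ∑ i ∈ Finset.range s, (l ^ (i + 1) - l ^ i) = l ^ s := by
      clear_value s
      clear h2 hsK hs h1 ih
      induction s with
      | zero => simp
      | succ s ih =>
        rw [Finset.sum_range_succ, ← add_assoc, ih]
        have : l ^ s ≤ l ^ (s + 1) := Nat.pow_le_pow_right hl.pos (Nat.le_succ s)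
        omega
    rw [h1, h2]
    omega

theorem sum_layers (hl : l.Prime) (K : ℕ) :
    1 + ∑ i ∈ Finset.range K, (l ^ (i + 1) - l ^ i) = l ^ K := by
  induction K with
  | zero => simp
  | succ K ih =>
    rw [Finset.sum_range_succ, ← add_assoc, ih]
    have : l ^ K ≤ l ^ (K + 1) := Nat.pow_le_pow_right hl.pos (Nat.le_succ K)
    omega

theorem V_smul_le (hl : l.Prime) (d y : ℕ) : V l (d * y) ≤ d * V l y + d ^ 2 * y := by
  rcases Nat.eq_zero_or_pos (d * y) with h0 | h0
  · rw [h0, V_zero]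
    exact Nat.zero_le _
  have hd : 0 < d := Nat.pos_of_mul_pos_right h0
  have hy : 0 < y := Nat.pos_of_mul_pos_left h0
  obtain ⟨K, hK1, hK2⟩ : ∃ K, l ^ K ≤ d * y ∧ d * y < l ^ (K + 1) :=
    ⟨Nat.log l (d * y), Nat.pow_log_le_self l h0.ne', Nat.lt_pow_succ_log_self hl.one_lt _⟩
  have hy2 : y < l ^ (K + 1) := (Nat.le_mul_of_pos_left y hd).trans_lt hK2
  rw [V_layers hl K _ hK2, V_layers hl K y hy2]
  have h1 : ∀ i, d * y / l ^ (i + 1) ≤ d * (y / l ^ (i + 1)) + (d - 1) := by
    intro i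
    have hp : 0 < l ^ (i + 1) := pow_pos hl.pos _
    rw [← Nat.lt_succ_iff, Nat.div_lt_iff_lt_mul hp]
    have h2 := Nat.lt_mul_div_succ y hp
    have h3 : Nat.succ (d * (y / l ^ (i + 1)) + (d - 1)) = d * (y / l ^ (i + 1) + 1) := by
      rw [mul_add, mul_one]
      omega
    rw [h3, mul_assoc]
    refine Nat.mul_lt_mul_of_pos_left ?_ hd
    rw [mul_comm]
    exact h2
  calc d * y + ∑ i ∈ Finset.range K, (l ^ (i + 1) - l ^ i) * (d * y / l ^ (i + 1))
      ≤ d * y + ∑ i ∈ Finset.range K, (l ^ (i + 1) - l ^ i) * (d * (y / l ^ (i + 1)) + (d - 1)) := by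
        gcongr with i _
        exact h1 i
    _ = d * (y + ∑ i ∈ Finset.range K, (l ^ (i + 1) - l ^ i) * (y / l ^ (i + 1))) +
          (d - 1) * ∑ i ∈ Finset.range K, (l ^ (i + 1) - l ^ i) := by
        simp only [mul_add, Finset.mul_sum, Finset.sum_add_distrib]
        rw [add_assoc]
        congr 2
        · exact Finset.sum_congr rfl fun i _ => by ring
        · exact Finset.sum_congr rfl fun i _ => by ring
    _ ≤ _ := by
        refine Nat.add_le_add_left ?_ _
        have h4 := sum_layers hl K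
        calc (d - 1) * ∑ i ∈ Finset.range K, (l ^ (i + 1) - l ^ i) ≤ d * (d * y) := by
              refine Nat.mul_le_mul (Nat.sub_le _ _) ?_
              omega
          _ = _ := by ring

/-- the equations of a form of degree `d` above the level `k` -/
theorem sum_wgt (hl : l.Prime) {D d k : ℕ} (hd : 0 < d) (hk : k < D) (hD : ¬ l ∣ D) :
    V l (d * k) + ∑ j ∈ Finset.Ioo (d * k) (d * (D + 1)), l ^ padicValNat l (wgt D d j) =
      V l (d * D) + V l (d - 1) := by
  have : Fact l.Prime := ⟨hl⟩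
  have h1 : Finset.Ioo (d * k) (d * (D + 1)) =
      Finset.Ioc (d * k) (d * D) ∪ Finset.Ioo (d * D) (d * (D + 1)) := by
    ext j
    have h2 : d * k ≤ d * D := Nat.mul_le_mul_left _ hk.le
    have h3 : d * (D + 1) = d * D + d := by ring
    simp only [Finset.mem_union, Finset.mem_Ioo, Finset.mem_Ioc]
    omega
  have h2 : Disjoint (Finset.Ioc (d * k) (d * D)) (Finset.Ioo (d * D) (d * (D + 1))) := by
    rw [Finset.disjoint_left]
    intro j hj hj'
    rw [Finset.mem_Ioc] at hj
    rw [Finset.mem_Ioo] at hj'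
    omega
  have h3 : ∑ j ∈ Finset.Ioc (d * k) (d * D), l ^ padicValNat l (wgt D d j) =
      ∑ j ∈ Finset.Ioc (d * k) (d * D), l ^ padicValNat l j := by
    refine Finset.sum_congr rfl fun j hj => ?_
    rw [wgt, if_pos (Finset.mem_Ioc.1 hj).2]
  have h4 : ∑ j ∈ Finset.Ioo (d * D) (d * (D + 1)), l ^ padicValNat l (wgt D d j) =
      V l (d - 1) := by
    have hD0 : D ≠ 0 := fun h => hD (h ▸ dvd_zero l)
    have h5 : d * (D + 1) = d * D + d := by ring
    rw [V]
    refine Finset.sum_nbij' (fun j => d * (D + 1) - j - 1) (fun t => d * (D + 1) - (t + 1))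
      ?_ ?_ ?_ ?_ ?_
    · intro j hj
      rw [Finset.mem_Ioo] at hj
      rw [Finset.mem_range]
      omega
    · intro t ht
      rw [Finset.mem_range] at ht
      rw [Finset.mem_Ioo]
      omega
    · intro j hj
      rw [Finset.mem_Ioo] at hj
      omega
    · intro t ht
      rw [Finset.mem_range] at ht
      omega
    · intro j hj
      rw [Finset.mem_Ioo] at hj
      rw [wgt, if_neg (by omega), padicValNat.mul (by omega) hD0,
        padicValNat.eq_zero_of_not_dvd hD, add_zero]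
      congr 2
      omega
  rw [h1, Finset.sum_union h2, h3, h4, ← add_assoc, sum_Ioc l _ _ (Nat.mul_le_mul_left _ hk.le)]

/-- one form -/
theorem cost_le (hl : l.Prime) {κ d x : ℕ} (hd : 0 < d) (hx : 0 < x) (hx2 : x < l ^ κ) :
    ∑ j ∈ Finset.Ioo (d * (l ^ κ - 1 - x)) (d * (l ^ κ - 1 + 1)),
        l ^ padicValNat l (wgt (l ^ κ - 1) d j) ≤
      d * V l x + (d + 2 * d ^ 2) * (x + 1) + V l (d - 1) := by
  set e := l ^ κ with he
  have he0 : 0 < e := pow_pos hl.pos _
  have hκ : κ ≠ 0 := by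
    rintro rfl
    rw [pow_zero] at he
    omega
  have hle : l ∣ e := dvd_pow_self l hκ
  have hD : ¬ l ∣ e - 1 := by
    intro h
    have h1 : l ∣ 1 := by
      have h2 := Nat.dvd_sub hle h
      rwa [Nat.sub_sub_self he0] at h2
    exact hl.one_lt.ne' (Nat.dvd_one.1 h1)
  have h1 := sum_wgt hl hd (k := e - 1 - x) (D := e - 1) (by omega) hD
  have hyy : d * (x + 1) ≤ d * e := Nat.mul_le_mul_left _ (by omega)
  have hdx : 0 < d * (x + 1) := Nat.mul_pos hd (Nat.succ_pos x)
  have h2 := V_reflect hl κ d (d * (x + 1) - 1) (by rw [← he]; omega)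
  rw [← he] at h2
  have h3 : d * e - 1 - (d * (x + 1) - 1) = d * (e - 1 - x) := by
    have h4 : d * (e - 1 - x) = d * e - d * (x + 1) := by
      rw [← Nat.mul_sub]
      congr 1
      omega
    rw [h4]
    omega
  rw [h3] at h2
  have h4 : V l (d * (e - 1)) ≤ V l (d * e - 1) := by
    refine V_mono l ?_
    rw [Nat.mul_sub, mul_one]
    omega
  have h5 : d * e * ((d * (x + 1) - 1) / e) ≤ d * (d * (x + 1)) := by
    rw [mul_assoc]
    refine Nat.mul_le_mul_left _ ((Nat.mul_div_le _ _).trans (Nat.sub_le _ _))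
  have h6 : V l (d * (x + 1) - 1) ≤ d * V l (x + 1) + d ^ 2 * (x + 1) :=
    (V_mono l (Nat.sub_le _ _)).trans (V_smul_le hl d (x + 1))
  have h7 : V l (x + 1) ≤ V l x + (x + 1) := by
    rw [V_succ]
    exact Nat.add_le_add_left (part_le (Nat.succ_pos x)) _
  have h8 : d * V l (x + 1) ≤ d * (V l x + (x + 1)) := Nat.mul_le_mul_left _ h7
  nlinarith

end BDNum

open BDNum in
/-- **the numbers** -/
theorem cut_numbers {l : ℕ} (hl : l.Prime) {r n : ℕ} (d : Fin r → ℕ) (hd : ∀ a, 0 < d a)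
    (hn : ∑ a, d a ^ 2 ≤ n) : ∃ D, 2 ≤ D ∧ (∃ κ, D + 1 = l ^ κ) ∧ ∀ m₀ c, 0 < m₀ → ∃ S, ∀ k < D,
      ∑ a, (m₀ * (d a * S + c)) *
          ∑ j ∈ Finset.Ioo (d a * k) (d a * (D + 1)), l ^ padicValNat l (wgt D (d a) j) <
        m₀ * (n + 1) * (S + 1) * (∑ i ∈ Finset.Ioc k D, l ^ padicValNat l i) +
          m₀ * (S + 1) * l ^ padicValNat l (D + 1) := by
  have : Fact l.Prime := ⟨hl⟩
  have hl2 := hl.two_le
  set C : ℕ := ∑ a, (d a * (d a + 2 * d a ^ 2) + d a * V l (d a - 1)) with hC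
  set κ := 8 * C + (C + 2) with hκ
  have hCe : C * l ^ (8 * C) < l ^ κ := by
    rw [hκ, pow_add, mul_comm]
    refine Nat.mul_lt_mul_of_pos_left ?_ (pow_pos hl.pos _)
    calc C < C + 2 := by omega
      _ < 2 ^ (C + 2) := Nat.lt_two_pow_self
      _ ≤ l ^ (C + 2) := Nat.pow_le_pow_left hl2 _
  have he4 : 4 ≤ l ^ κ := by
    calc 4 = 2 ^ 2 := rfl
      _ ≤ l ^ 2 := Nat.pow_le_pow_left hl2 _
      _ ≤ l ^ κ := Nat.pow_le_pow_right hl.pos (by omega)
  set e := l ^ κ with he
  have hee : e - 1 + 1 = e := by omega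
  refine ⟨e - 1, by omega, ⟨κ, hee⟩, fun m₀ c hm₀ => ?_⟩
  set Q : ℕ → Fin r → ℕ := fun k a =>
    ∑ j ∈ Finset.Ioo (d a * k) (d a * (e - 1 + 1)), l ^ padicValNat l (wgt (e - 1) (d a) j)
    with hQ
  set S : ℕ := c * ∑ k ∈ Finset.range (e - 1), ∑ a, Q k a with hS
  refine ⟨S, fun k hk => ?_⟩
  -- the inequality without `S`
  obtain ⟨x, hx, hx2, hxk⟩ : ∃ x, 0 < x ∧ x < e ∧ k = e - 1 - x := ⟨e - 1 - k, by omega, by omega,
    by omega⟩
  have h1 : ∀ a, Q k a ≤ d a * V l x + (d a + 2 * d a ^ 2) * (x + 1) + V l (d a - 1) := by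
    intro a
    rw [hQ, hxk]
    exact cost_le hl (hd a) hx hx2
  have h2 : ∑ a, d a * Q k a ≤ n * V l x + C * (x + 1) := by
    calc ∑ a, d a * Q k a
        ≤ ∑ a, (d a ^ 2 * V l x +
            (d a * (d a + 2 * d a ^ 2) + d a * V l (d a - 1)) * (x + 1)) := by
          refine Finset.sum_le_sum fun a _ => ?_
          calc d a * Q k a ≤ d a * (d a * V l x + (d a + 2 * d a ^ 2) * (x + 1) + V l (d a - 1)) :=
                Nat.mul_le_mul_left _ (h1 a)
            _ = d a ^ 2 * V l x + (d a * (d a + 2 * d a ^ 2)) * (x + 1) +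
                  d a * V l (d a - 1) * 1 := by ring
            _ ≤ d a ^ 2 * V l x + (d a * (d a + 2 * d a ^ 2)) * (x + 1) +
                  d a * V l (d a - 1) * (x + 1) := by
                gcongr
                omega
            _ = _ := by ring
      _ = (∑ a, d a ^ 2) * V l x + C * (x + 1) := by
          rw [Finset.sum_add_distrib, Finset.sum_mul, hC, Finset.sum_mul]
      _ ≤ _ := by gcongr
  have h3 : C * (x + 1) < V l x + e := by
    rcases lt_or_ge x (l ^ (8 * C)) with h | h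
    · calc C * (x + 1) ≤ C * l ^ (8 * C) := Nat.mul_le_mul_left _ h
        _ < e := hCe
        _ ≤ _ := Nat.le_add_left _ _
    · have h4 := V_superlinear hl (8 * C) x h
      have h5 : C * (x + 1) ≤ C * (2 * x) := Nat.mul_le_mul_left _ (by omega)
      have h6 : 8 * C * x = 4 * (C * (2 * x)) := by ring
      omega
  have h4 : ∑ a, d a * Q k a < (n + 1) * V l x + e := by
    have : (n + 1) * V l x = n * V l x + V l x := by ring
    omega
  have h5 : ∑ i ∈ Finset.Ioc k (e - 1), l ^ padicValNat l i = V l x := by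
    have h6 := sum_Ioc l k (e - 1) hk.le
    have h7 := V_reflect_one hl κ x hx2
    rw [← he, ← hxk] at h7
    omega
  have h6 : l ^ padicValNat l (e - 1 + 1) = e := by
    rw [hee, he, padicValNat.prime_pow]
  have h7 : c * ∑ a, Q k a ≤ S := by
    rw [hS]
    refine Nat.mul_le_mul_left _ ?_
    exact Finset.single_le_sum (f := fun k => ∑ a, Q k a) (fun _ _ => Nat.zero_le _)
      (Finset.mem_range.2 hk)
  rw [h5, h6]
  change ∑ a, (m₀ * (d a * S + c)) * Q k a < _
  calc ∑ a, (m₀ * (d a * S + c)) * Q k a = m₀ * (S * (∑ a, d a * Q k a) + c * ∑ a, Q k a) := by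
        rw [Finset.mul_sum, Finset.mul_sum, ← Finset.sum_add_distrib, Finset.mul_sum]
        exact Finset.sum_congr rfl fun a _ => by ring
    _ ≤ m₀ * (S * (∑ a, d a * Q k a) + S) := by gcongr
    _ = m₀ * (S * (∑ a, d a * Q k a + 1)) := by ring
    _ ≤ m₀ * (S * ((n + 1) * V l x + e)) :=
        Nat.mul_le_mul_left _ (Nat.mul_le_mul_left _ h4)
    _ < m₀ * ((S + 1) * ((n + 1) * V l x + e)) := by
        refine Nat.mul_lt_mul_of_pos_left ?_ hm₀
        refine Nat.mul_lt_mul_of_pos_right (Nat.lt_succ_self S) ?_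
        omega
    _ = _ := by ring

theorem sum_wgt_eq {l D d k : ℕ} (hk : k ≤ D) :
    ∑ j ∈ Finset.Ioo (d * k) (d * (D + 1)), l ^ padicValNat l (wgt D d j) =
      ∑ j ∈ Finset.Ioc (d * k) (d * D), l ^ padicValNat l j +
        ∑ q ∈ Finset.Ioo 0 d, l ^ padicValNat l (q * D) := by
  rcases Nat.eq_zero_or_pos d with rfl | hd
  · simp
  have h5 : d * (D + 1) = d * D + d := by ring
  have h6 : d * k ≤ d * D := Nat.mul_le_mul_left _ hk
  have h1 : Finset.Ioo (d * k) (d * (D + 1)) =
      Finset.Ioc (d * k) (d * D) ∪ Finset.Ioo (d * D) (d * (D + 1)) := by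
    ext j
    simp only [Finset.mem_union, Finset.mem_Ioo, Finset.mem_Ioc]
    omega
  have h2 : Disjoint (Finset.Ioc (d * k) (d * D)) (Finset.Ioo (d * D) (d * (D + 1))) := by
    rw [Finset.disjoint_left]
    intro j hj hj'
    rw [Finset.mem_Ioc] at hj
    rw [Finset.mem_Ioo] at hj'
    omega
  rw [h1, Finset.sum_union h2]
  congr 1
  · refine Finset.sum_congr rfl fun j hj => ?_
    rw [wgt, if_pos (Finset.mem_Ioc.1 hj).2]
  · refine Finset.sum_nbij' (fun j => d * (D + 1) - j) (fun q => d * (D + 1) - q) ?_ ?_ ?_ ?_ ?_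
    · intro j hj
      rw [Finset.mem_Ioo] at hj
      rw [Finset.mem_Ioo]
      omega
    · intro q hq
      rw [Finset.mem_Ioo] at hq
      rw [Finset.mem_Ioo]
      omega
    · intro j hj
      rw [Finset.mem_Ioo] at hj
      omega
    · intro q hq
      rw [Finset.mem_Ioo] at hq
      omega
    · intro j hj
      rw [Finset.mem_Ioo] at hj
      rw [wgt, if_neg (by omega)]

/-- **the numbers**, in the form of `BDX.chain_nonvanishing` -/
theorem cut_numbers' {l : ℕ} (hl : l.Prime) {r n : ℕ} (d : Fin r → ℕ) (hd : ∀ a, 0 < d a)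
    (hn : ∑ a, d a ^ 2 ≤ n) : ∃ D, 2 ≤ D ∧ ∀ m₀ c, 0 < m₀ → ∃ S, ∀ k < D,
      ∑ a, (m₀ * (d a * S + c)) *
          (∑ j ∈ Finset.Ioc (d a * k) (d a * D), l ^ padicValNat l j +
            ∑ q ∈ Finset.Ioo 0 (d a), l ^ padicValNat l (q * D)) <
        m₀ * (n + 1) * (S + 1) * (∑ i ∈ Finset.Ioc k D, l ^ padicValNat l i) +
          m₀ * (S + 1) * l ^ padicValNat l (D + 1) := by
  obtain ⟨D, hD, -, h⟩ := cut_numbers hl d hd hn
  refine ⟨D, hD, fun m₀ c hm => ?_⟩
  obtain ⟨S, hS⟩ := h m₀ c hm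
  refine ⟨S, fun k hk => ?_⟩
  have h1 := hS k hk
  simp only [sum_wgt_eq hk.le] at h1
  exact h1

end ZC
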