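import Pool.Agent.Helper89.BD.Gen
import Pool.Agent.Helper99.BD.Defs

/-!
# Chains of rational curves (Helper15, row G7 of MP_bd895b_nt)

* `Seg X u v`: `u` and `v` are the points at `0` and at infinity of a rational curve on `X`;
* `Seg.equiv`, `chain_equiv`: points joined by a chain of rational curves are rationally equivalent;
* `equiv_of_chain`: it is enough to join them over extensions of degree prime to `l`, for every
  prime `l`.
-/

set_option autoImplicit false

open MvPolynomial

namespace ZC

universe u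

section defs

variable {K : Type u} [Field K] {n r : ℕ}

/-- `u` and `v` are the points at `0` and at infinity of a rational curve on `X`. -/
def Seg (X : ProjVar K n r) {M : Type u} [Field M] [Algebra K M] (u v : Fin (n + 1) → M) : Prop :=
  u ≠ 0 ∧ v ≠ 0 ∧ ∃ (N : ℕ) (ψ : Fin (n + 1) → Polynomial M) (c : M), c ≠ 0 ∧
    (∀ i, (ψ i).natDegree ≤ N) ∧ (∀ i, (ψ i).coeff 0 = u i) ∧ (∀ i, (ψ i).coeff N = c * v i) ∧
    ∀ a, aeval ψ (X.form a) = 0

/-- `u` and `v` are joined by a chain of rational curves on `X`. -/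
def Chained (X : ProjVar K n r) {M : Type u} [Field M] [Algebra K M]
    (u v : Fin (n + 1) → M) : Prop :=
  Relation.ReflTransGen (Seg X) u v

end defs

section

variable {K L : Type u} [Field K] [Field L] [Algebra K L] {n r : ℕ}

theorem isPt_scale (X : ProjVar K n r) {v : Fin (n + 1) → L} {c : L} (hc : c ≠ 0)
    (h : X.IsPt fun i => c * v i) : X.IsPt v := by
  refine ⟨fun h0 => h.1 (funext fun i => by rw [h0, Pi.zero_apply, mul_zero]), fun a => ?_⟩
  have h1 := h.2 a
  rw [aeval_scale (X.hom a)] at h1
  exact (mul_eq_zero.1 h1).resolve_left (pow_ne_zero _ hc)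

theorem Seg.equiv [FiniteDimensional K L] (X : ProjVar K n r) {u v : Fin (n + 1) → L}
    (h : Seg X u v) (hu : X.IsPt u) :
    ∃ hv : X.IsPt v, ptCycle X u hu - ptCycle X v hv ∈ ratEquiv X := by
  obtain ⟨-, hv0, N, ψ, c, hc, hdeg, h0, hN, hf⟩ := h
  have hne : (fun i => (ψ i).coeff N) ≠ 0 := by
    intro h1
    apply hv0
    funext i
    have h2 := congrFun h1 i
    rw [hN i] at h2
    exact (mul_eq_zero.1 h2).resolve_left hc
  have hcv : X.IsPt fun i => c * v i := by
    have h1 := isPt_last X ψ N hdeg hf hne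
    have h2 : (fun i => (ψ i).coeff N) = fun i => c * v i := funext hN
    rw [h2] at h1
    exact h1
  have hv : X.IsPt v := isPt_scale X hc hcv
  have hpt : X.IsPt (fun i => Polynomial.aeval (RatFunc.X : RatFunc L) (ψ i) :
      Fin (n + 1) → RatFunc L) := by
    refine ⟨fun h1 => hu.1 ?_, fun a => ?_⟩
    · funext i
      have h2 := congrFun h1 i
      have h3 : ψ i = 0 := by
        by_contra hne
        exact transcendental_X (L := L) ⟨_, hne, h2⟩
      rw [← h0 i, h3]
      rfl
    · have h4 := MvPolynomial.comp_aeval_apply ψ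
        ((Polynomial.aeval (RatFunc.X : RatFunc L)).restrictScalars K) (X.form a)
      rw [hf a, map_zero] at h4
      exact h4.symm
  have h1 := curve_equiv X u (fun i => c * v i) hu hcv ψ N h0 hN hdeg hpt
  have h2 : ptCycle X v hv = ptCycle X (fun i => c * v i) hcv :=
    ptCycle_congr X (AlgEquiv.refl : L ≃ₐ[K] L) c hc hv hcv fun i => rfl
  exact ⟨hv, by rw [h2]; exact h1⟩

/-- Points joined by a chain of rational curves are rationally equivalent. -/
theorem chain_equiv [FiniteDimensional K L] (X : ProjVar K n r) {u v : Fin (n + 1) → L}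
    (h : Chained X u v) (hu : X.IsPt u) :
    ∃ hv : X.IsPt v, ptCycle X u hu - ptCycle X v hv ∈ ratEquiv X := by
  induction h with
  | refl => exact ⟨hu, by rw [sub_self]; exact zero_mem _⟩
  | tail _ hs ih =>
    obtain ⟨hb, hb'⟩ := ih
    obtain ⟨hc, hc'⟩ := hs.equiv X hb
    refine ⟨hc, ?_⟩
    have h1 := add_mem hb' hc'
    rwa [sub_add_sub_cancel] at h1

/-- If for every prime `l` the points `x` and `y` are joined by a chain of rational curves over an
extension of degree prime to `l`, then they are rationally equivalent. -/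
theorem equiv_of_chain [FiniteDimensional K L] (X : ProjVar K n r) (x y : Fin (n + 1) → L)
    (hx : X.IsPt x) (hy : X.IsPt y)
    (h : ∀ l : ℕ, l.Prime → ∃ (M : Type u) (_ : Field M) (_ : Algebra L M)
      (_ : FiniteDimensional L M), (Module.finrank L M).Coprime l ∧
      Chained (X.map (algebraMap K L)) (fun i => algebraMap L M (x i))
        fun i => algebraMap L M (y i)) :
    ptCycle X x hx - ptCycle X y hy ∈ ratEquiv X := by
  set c := ptCycle X x hx - ptCycle X y hy with hc
  -- the multiples of `c` which are rationally equivalent to zero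
  let J : AddSubgroup ℤ := (ratEquiv X).comap (zmultiplesHom _ c)
  have hJ : ∀ m : ℤ, m ∈ J ↔ m • c ∈ ratEquiv X := fun m => by
    rw [AddSubgroup.mem_comap, zmultiplesHom_apply]
  obtain ⟨g, hg⟩ := Int.subgroup_cyclic J
  have hg1 : ∀ m : ℤ, m ∈ J ↔ g ∣ m := by
    intro m
    rw [hg, ← AddSubgroup.zmultiples_eq_closure, Int.mem_zmultiples_iff]
  suffices hone : (1 : ℤ) ∈ J by
    have := (hJ 1).1 hone
    rwa [one_smul] at this
  rw [hg1]
  by_contra hcon
  have hg2 : g.natAbs ≠ 1 := fun h1 => hcon (Int.isUnit_iff_natAbs_eq.2 h1).dvd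
  obtain ⟨l, hl, hlg⟩ := Nat.exists_prime_and_dvd hg2
  obtain ⟨M, _, _, _, hdeg, hch⟩ := h l hl
  let _ : Algebra K M := ((algebraMap L M).comp (algebraMap K L)).toAlgebra
  have _ : IsScalarTower K L M := IsScalarTower.of_algebraMap_eq fun a => rfl
  have _ : FiniteDimensional K M := FiniteDimensional.trans K L M
  have hx' : X.IsPt fun i => algebraMap L M (x i) := isPt_emb X (IsScalarTower.toAlgHom K L M) hx
  have hy' : X.IsPt fun i => algebraMap L M (y i) := isPt_emb X (IsScalarTower.toAlgHom K L M) hy
  have hch' : Chained X (fun i => algebraMap L M (x i)) fun i => algebraMap L M (y i) := by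
    unfold Chained at hch ⊢
    refine Relation.ReflTransGen.mono ?_ _ _ hch
    rintro a b ⟨h1, h2, N, ψ, c, h3, h4, h5, h6, h7⟩
    refine ⟨h1, h2, N, ψ, c, h3, h4, h5, h6, fun i => ?_⟩
    have h8 := h7 i
    change aeval ψ (MvPolynomial.map (algebraMap K L) (X.form i)) = 0 at h8
    rwa [aeval_map_algebraMap] at h8
  obtain ⟨hy2, key⟩ := chain_equiv X hch' hx'
  rw [ptCycle_tower X x hx hx', ptCycle_tower X y hy hy', ← smul_sub] at key
  have h1 : (Module.finrank L M : ℤ) ∈ J := (hJ _).2 key
  rw [hg1] at h1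
  have h2 : l ∣ Module.finrank L M := by
    have : (l : ℤ) ∣ (Module.finrank L M : ℤ) :=
      (Int.natCast_dvd.2 hlg).trans h1
    exact_mod_cast this
  have h3 : l ∣ 1 := by
    rw [← hdeg.gcd_eq_one]
    exact Nat.dvd_gcd h2 dvd_rfl
  exact hl.one_lt.ne' (Nat.dvd_one.1 h3)

end

/-- Zeros over a union of extensions of degree prime to `l` are zeros over a finite one. -/
theorem PrimeTo.descend {l : ℕ} {L M : Type u} [Field L] [Field M] [Algebra L M]
    (hM : PrimeTo l L M) {τ : Type*} [Finite τ] (x : τ → M) :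
    ∃ (E : Type u) (_ : Field E) (_ : Algebra L E) (_ : Algebra E M) (_ : IsScalarTower L E M)
      (_ : FiniteDimensional L E), (Module.finrank L E).Coprime l ∧
      ∃ x' : τ → E, (∀ t, algebraMap E M (x' t) = x t) ∧
        ∀ g : MvPolynomial τ L, eval x (MvPolynomial.map (algebraMap L M) g) = 0 →
          eval x' (MvPolynomial.map (algebraMap L E) g) = 0 := by
  classical
  obtain ⟨E, hE, hfin, -, hcop⟩ := hM (Set.finite_range x).toFinset
  have hx : ∀ t, x t ∈ E := fun t => hE (by simp)
  refine ⟨E, inferInstance, inferInstance, inferInstance, inferInstance, hfin, hcop,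
    fun t => ⟨x t, hx t⟩, fun t => rfl, fun g hg => ?_⟩
  have h1 : Function.Injective (algebraMap E M) := (algebraMap E M).injective
  apply h1
  rw [map_zero, ← hg, eval_map, eval_map, ← aeval_def, ← aeval_def, ← aeval_algebraMap_apply]
  rfl

end ZC
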